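import Pool.Agent.helper56.CY.Spec

/-!
# Project cy (MP_45d809), row PLC: two-colouring of the faces of a spherical rotation system
-/

set_option autoImplicit false

namespace Pool.Agent.CY
open Finset CT

private theorem PLC_cyc {V : Type} {G : SimpleGraph V} (R : Rotation G) (g : G.Dart → ZMod 2)
    (hg : ∀ d, g (R.phi d) = g d) (d d' : G.Dart) (h : R.phi.SameCycle d d') : g d = g d' := by
  obtain ⟨i, rfl⟩ := h
  have h1 : ∀ (i : ℤ) (d : G.Dart), g ((R.phi ^ i) d) = g d := by
    intro i
    induction i using Int.induction_on with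
    | zero => intro d; simp
    | succ n ih =>
      intro d
      rw [zpow_add_one, Equiv.Perm.mul_apply, ih, hg]
    | pred n ih =>
      intro d
      rw [zpow_sub_one, Equiv.Perm.mul_apply, ih]
      have h2 := hg (R.phi⁻¹ d)
      have h3 : R.phi (R.phi⁻¹ d) = d := R.phi.apply_symm_apply d
      rw [h3] at h2
      exact h2.symm
  exact (h1 i d).symm

private theorem PLC_lift {V : Type} {G : SimpleGraph V} (R : Rotation G) (g : G.Dart → ZMod 2)
    (hg : ∀ d, g (R.phi d) = g d) : ∃ f : R.Face → ZMod 2, ∀ d, f (R.face d) = g d :=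
  ⟨Quotient.lift g (fun a b h => PLC_cyc R g hg a b h), fun _ => rfl⟩

private theorem PLC_face {V : Type} {G : SimpleGraph V} (R : Rotation G) (d : G.Dart) :
    R.face (R.phi d) = R.face d := by
  unfold Rotation.face
  refine Quotient.sound ?_
  refine ⟨-1, ?_⟩
  simp

/-- the functions constant on the faces -/
private def PLC_A {V : Type} {G : SimpleGraph V} (R : Rotation G) : AddSubgroup (G.Dart → ZMod 2) where
  carrier := {g | ∀ d, g (R.phi d) = g d}
  add_mem' := by
    intro a b ha hb d
    rw [Pi.add_apply, Pi.add_apply, ha d, hb d]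
  zero_mem' := by
    intro d
    rfl
  neg_mem' := by
    intro a ha d
    rw [Pi.neg_apply, Pi.neg_apply, ha d]

open Classical in
/-- the cycle space -/
private noncomputable def PLC_B {V : Type} [Fintype V] (G : SimpleGraph V) : AddSubgroup (G.Dart → ZMod 2) where
  carrier := {x | (∀ d, x d.symm = x d) ∧
      ∀ v, ∑ d ∈ (univ : Finset G.Dart).filter (fun d => d.fst = v), x d = 0}
  add_mem' := by
    rintro a b ⟨ha, ha'⟩ ⟨hb, hb'⟩
    refine ⟨?_, ?_⟩
    · intro d
      rw [Pi.add_apply, Pi.add_apply, ha d, hb d]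
    · intro v
      simp only [Pi.add_apply]
      rw [sum_add_distrib, ha' v, hb' v, add_zero]
  zero_mem' := by
    refine ⟨fun d => rfl, fun v => ?_⟩
    simp
  neg_mem' := by
    rintro a ⟨ha, ha'⟩
    refine ⟨?_, ?_⟩
    · intro d
      rw [Pi.neg_apply, Pi.neg_apply, ha d]
    · intro v
      simp only [Pi.neg_apply]
      rw [sum_neg_distrib, ha' v, neg_zero]

private theorem PLC_rot {V : Type} {G : SimpleGraph V} (R : Rotation G) (g : G.Dart → ZMod 2)
    (hg : ∀ d, g (R.phi d) = g d) (d : G.Dart) : g d.symm = g (R.rot d) := by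
  have h := hg d.symm
  have h2 : R.phi d.symm = R.rot d := by
    have : R.phi d.symm = R.rot (d.symm.symm) := rfl
    rw [this, SimpleGraph.Dart.symm_symm]
  rw [h2] at h
  exact h.symm

open Classical in
private theorem PLC_mem {V : Type} [Fintype V] {G : SimpleGraph V} (R : Rotation G) (g : G.Dart → ZMod 2)
    (hg : ∀ d, g (R.phi d) = g d) : (fun d => g d + g d.symm) ∈ PLC_B G := by
  refine ⟨?_, ?_⟩
  · intro d
    simp only [SimpleGraph.Dart.symm_symm]
    exact add_comm _ _
  · intro v
    rw [sum_add_distrib]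
    have h : ∑ d ∈ (univ : Finset G.Dart).filter (fun d => d.fst = v), g d.symm =
        ∑ d ∈ (univ : Finset G.Dart).filter (fun d => d.fst = v), g d := by
      refine sum_equiv R.rot ?_ ?_
      · intro d
        rw [mem_filter, mem_filter, R.fst d]
        simp
      · intro d _
        exact PLC_rot R g hg d
    rw [h]
    exact CharTwo.add_self_eq_zero _

/-- the map `g ↦ g + g ∘ symm` -/
private noncomputable def PLC_D {V : Type} [Fintype V] {G : SimpleGraph V} (R : Rotation G) :
    PLC_A R →+ PLC_B G where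
  toFun g := ⟨fun d => g.1 d + g.1 d.symm, PLC_mem R g.1 g.2⟩
  map_zero' := by
    ext d
    simp
  map_add' := by
    intro a b
    ext d
    simp only [AddSubgroup.coe_add, Pi.add_apply]
    ring

private theorem PLC_cardA {V : Type} [Fintype V] {G : SimpleGraph V} (R : Rotation G) :
    Nat.card (PLC_A R) = 2 ^ Nat.card R.Face := by
  classical
  have hfin : Finite R.Face := inferInstanceAs (Finite (Quotient (Equiv.Perm.SameCycle.setoid R.phi)))
  have h1 : Nat.card (R.Face → ZMod 2) = 2 ^ Nat.card R.Face := by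
    rw [Nat.card_fun, Nat.card_zmod]
  rw [← h1]
  symm
  refine Nat.card_eq_of_bijective (fun f : R.Face → ZMod 2 => (⟨fun d => f (R.face d), fun d => by
    simp only [PLC_face]⟩ : PLC_A R)) ⟨?_, ?_⟩
  · intro f f' h
    funext c
    induction c using Quotient.ind with
    | _ d =>
      have h2 := congrArg (fun t : PLC_A R => t.1 d) h
      exact h2
  · intro g
    obtain ⟨f, hf⟩ := PLC_lift R g.1 g.2
    refine ⟨f, ?_⟩
    ext d
    exact hf d

private theorem PLC_ker (hPLK : PLK_stmt) {V : Type} [Fintype V] {G : SimpleGraph V} (R : Rotation G)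
    (hG : G.Preconnected) (d₀ : G.Dart) : Nat.card (PLC_D R).ker = 2 := by
  have h2 : Nat.card (ZMod 2) = 2 := Nat.card_zmod 2
  refine Eq.trans ?_ h2
  have hk : ∀ g : (PLC_D R).ker, ∀ d, g.1.1 d = g.1.1 d₀ := by
    intro g d
    refine hPLK V G R g.1.1 hG g.1.2 ?_ d d₀
    intro d'
    have h3 := g.2
    rw [AddMonoidHom.mem_ker] at h3
    have h4 := congrArg (fun t : PLC_B G => t.1 d') h3
    have h5 : g.1.1 d' + g.1.1 d'.symm = 0 := h4
    exact (CharTwo.add_eq_zero.1 h5).symm
  refine Nat.card_eq_of_bijective (fun g : (PLC_D R).ker => g.1.1 d₀) ⟨?_, ?_⟩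
  · intro g g' h
    ext d
    rw [hk g d, hk g' d]
    exact h
  · intro c
    refine ⟨⟨⟨fun _ => c, fun _ => rfl⟩, ?_⟩, rfl⟩
    rw [AddMonoidHom.mem_ker]
    ext d
    exact CharTwo.add_self_eq_zero c

open Classical in
private theorem PLC_one {V : Type} [Fintype V] {G : SimpleGraph V} (hF : FourRegular G) :
    (fun _ => 1 : G.Dart → ZMod 2) ∈ PLC_B G := by
  refine ⟨fun _ => rfl, fun v => ?_⟩
  have h1 : ((univ : Finset G.Dart).filter (fun d => d.fst = v)).card = 4 := by
    have h2 : ((univ : Finset G.Dart).filter (fun d => d.fst = v)) =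
        (univ : Finset (G.neighborSet v)).image (G.dartOfNeighborSet v) := by
      ext d
      rw [mem_filter, mem_image]
      constructor
      · rintro ⟨_, rfl⟩
        exact ⟨⟨d.snd, d.adj⟩, mem_univ _, rfl⟩
      · rintro ⟨e, _, rfl⟩
        exact ⟨mem_univ _, rfl⟩
    rw [h2, card_image_of_injective _ (G.dartOfNeighborSet_injective v), card_univ, ← hF v,
      Nat.card_eq_fintype_card]
    rfl
  rw [sum_const, h1]
  decide

theorem PLC (hPLK : PLK_stmt) (hPLD : PLD_stmt) : PLC_stmt := by
  intro V _ G R hG hF hS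
  classical
  -- a dart
  obtain ⟨v₀⟩ := hG.nonempty
  have hd : Nonempty {w // G.Adj v₀ w} := by
    have h := hF v₀
    by_contra hn
    rw [not_nonempty_iff] at hn
    rw [Nat.card_of_isEmpty] at h
    omega
  obtain ⟨w₀⟩ := hd
  let d₀ : G.Dart := ⟨(v₀, w₀.1), w₀.2⟩
  have hA := PLC_cardA R
  have hB : Nat.card (PLC_B G) * 2 ^ Fintype.card V = 2 ^ Nat.card G.edgeSet * 2 := hPLD V G hG
  have hK := PLC_ker hPLK R hG.preconnected d₀
  have hI : Nat.card (PLC_D R).ker * Nat.card (PLC_D R).range = Nat.card (PLC_A R) := by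
    rw [← AddSubgroup.index_ker, AddSubgroup.card_mul_index]
  have hS' : Nat.card V + Nat.card R.Face = Nat.card G.edgeSet + 2 := hS
  rw [Nat.card_eq_fintype_card] at hS'
  have hBA : Nat.card (PLC_B G) * 2 = Nat.card (PLC_A R) := by
    rw [hA]
    have h1 : Nat.card (PLC_B G) * 2 * 2 ^ Fintype.card V = 2 ^ Nat.card R.Face * 2 ^ Fintype.card V := by
      rw [← pow_add, add_comm, hS', pow_add]
      linarith
    exact Nat.eq_of_mul_eq_mul_right (by positivity) h1
  have hR : Nat.card (PLC_D R).range = Nat.card (PLC_B G) := by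
    rw [hK, ← hBA] at hI
    omega
  have hfinB : Finite (PLC_B G) := inferInstance
  have hsurj : (PLC_D R).range = ⊤ := AddSubgroup.eq_top_of_card_eq _ hR
  have h1 : (⟨fun _ => 1, PLC_one hF⟩ : PLC_B G) ∈ (PLC_D R).range := by
    rw [hsurj]
    exact AddSubgroup.mem_top _
  obtain ⟨g, hg⟩ := h1
  have hg1 : ∀ d, g.1 d + g.1 d.symm = 1 := by
    intro d
    exact congrArg (fun t : PLC_B G => t.1 d) hg
  obtain ⟨f, hf⟩ := PLC_lift R g.1 g.2
  refine ⟨fun c => decide (f c = 1), ?_⟩
  intro d hd
  have h2 := hg1 d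
  simp only [hf] at hd
  have key : ∀ a b : ZMod 2, a + b = 1 → decide (b = 1) ≠ decide (a = 1) := by decide
  exact key _ _ h2 hd

end Pool.Agent.CY
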